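import Pool.Agent.N912.PY.Stm

set_option autoImplicit false

/-! PY1: powers of the maps `U ∘ B ∘ V` with `U`, `V` of minimal rank (helper344). -/

namespace Pool.Agent.N344.PY

open Finset
open Pool.Agent.N912.PY

section

variable {S : Type} [Fintype S] [DecidableEq S]

/-- powers of a map which permutes a finite set -/
lemma pow_id {G : S → S} {I : Finset S} (hmaps : ∀ t ∈ I, G t ∈ I)
    (hinj : ∀ t ∈ I, ∀ t' ∈ I, G t = G t' → t = t') {M : ℕ}
    (hM : (Fintype.card S).factorial ∣ M) {t : S} (ht : t ∈ I) : G^[M] t = t := by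
  obtain ⟨f, hf⟩ : ∃ f : {x // x ∈ I} → {x // x ∈ I}, ∀ x, (f x).1 = G x.1 :=
    ⟨fun x => ⟨G x.1, hmaps x.1 x.2⟩, fun x => rfl⟩
  have hfi : Function.Injective f := by
    intro x y hxy
    apply Subtype.ext
    apply hinj _ x.2 _ y.2
    rw [← hf, ← hf, hxy]
  obtain ⟨σ, hσ⟩ : ∃ σ : Equiv.Perm {x // x ∈ I}, ∀ x, σ x = f x :=
    ⟨Equiv.ofBijective f (Finite.injective_iff_bijective.1 hfi), fun x => rfl⟩
  have hpow : ∀ (j : ℕ) (x : {x // x ∈ I}), ((σ ^ j) x).1 = G^[j] x.1 := by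
    intro j
    induction j with
    | zero => intro x; rfl
    | succ j ih =>
      intro x
      rw [pow_succ', Equiv.Perm.mul_apply, hσ, hf, ih, Function.iterate_succ_apply']
  have hone : σ ^ M = 1 := by
    have h1 : σ ^ (Fintype.card (Equiv.Perm {x // x ∈ I})) = 1 := pow_card_eq_one
    rw [Fintype.card_perm] at h1
    have h2 : (Fintype.card {x // x ∈ I}).factorial ∣ M := by
      refine (Nat.factorial_dvd_factorial ?_).trans hM
      exact Fintype.card_subtype_le _
    obtain ⟨c, hc⟩ := h2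
    rw [hc, pow_mul, h1, one_pow]
  have h3 := hpow M ⟨t, ht⟩
  rw [hone] at h3
  exact h3.symm

/-- the facts on one map -/
lemma facts {𝓜 : Set (S → S)} (hmul : ∀ f ∈ 𝓜, ∀ g ∈ 𝓜, f ∘ g ∈ 𝓜) {U V B : S → S} (hU : U ∈ 𝓜)
    (hV : V ∈ 𝓜) (hB : B ∈ 𝓜) (hUm : ∀ g ∈ 𝓜, (univ.image U).card ≤ (univ.image g).card)
    (hVm : ∀ g ∈ 𝓜, (univ.image V).card ≤ (univ.image g).card) {M : ℕ} (hM1 : 1 ≤ M)
    (hM : (Fintype.card S).factorial ∣ M) :
    (∀ s, (U ∘ B ∘ V)^[M] s ∈ univ.image U) ∧ (∀ s, V ((U ∘ B ∘ V)^[M] s) = V s) ∧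
      ∀ t ∈ univ.image U, ∀ t' ∈ univ.image U, V t = V t' → t = t' := by
  obtain ⟨G, hG⟩ : ∃ G : S → S, G = U ∘ B ∘ V := ⟨_, rfl⟩
  rw [← hG]
  have hGm : G ∈ 𝓜 := by rw [hG]; exact hmul _ hU _ (hmul _ hB _ hV)
  have hGs : ∀ s, G s = U (B (V s)) := fun s => by rw [hG]; rfl
  have hGI : ∀ s, G s ∈ univ.image U := fun s => by
    rw [hGs]
    exact mem_image_of_mem U (mem_univ _)
  have hsub : univ.image G ⊆ univ.image U := by
    intro x hx
    obtain ⟨s, -, rfl⟩ := mem_image.1 hx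
    exact hGI s
  have himg : univ.image G = univ.image U := eq_of_subset_of_card_le hsub (hUm G hGm)
  -- the kernel
  have hker : ∀ s t, G s = G t → V s = V t := by
    have h1 : (univ.image V).image (U ∘ B) = univ.image G := by
      rw [image_image, hG]
      rfl
    have h2 : ((univ.image V).image (U ∘ B)).card = (univ.image V).card := by
      apply le_antisymm card_image_le
      rw [h1]
      exact hVm G hGm
    have h3 := card_image_iff.1 h2
    intro s t hst
    rw [hGs, hGs] at hst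
    exact h3 (by simp) (by simp) hst
  -- the map is a permutation of the image
  have hinj : ∀ t ∈ univ.image U, ∀ t' ∈ univ.image U, G t = G t' → t = t' := by
    have h1 : (univ.image U).image G = univ.image (G ∘ G) := by
      rw [← himg, image_image]
    have h2 : ((univ.image U).image G).card = (univ.image U).card := by
      apply le_antisymm card_image_le
      rw [h1]
      exact hUm _ (hmul _ hGm _ hGm)
    have h3 := card_image_iff.1 h2
    intro t ht t' ht' h
    exact h3 ht ht' h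
  have hid : ∀ t ∈ univ.image U, G^[M] t = t := fun t ht =>
    pow_id (fun t _ => hGI t) hinj hM ht
  refine ⟨fun s => ?_, fun s => ?_, fun t ht t' ht' h => ?_⟩
  · obtain ⟨j, rfl⟩ : ∃ j, M = j + 1 := ⟨M - 1, by omega⟩
    rw [Function.iterate_succ_apply']
    exact hGI _
  · apply hker
    rw [← Function.iterate_succ_apply' G, Function.iterate_succ_apply]
    exact hid _ (hGI s)
  · apply hinj t ht t' ht'
    rw [hGs, hGs, h]

end

theorem d1 : S_D1 := by
  intro S _ _ 𝓜 hmul U V B₁ B₂ hU hV hB1 hB2 hUm hVm M hM1 hM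
  obtain ⟨a1, a2, a3⟩ := facts hmul hU hV hB1 hUm hVm hM1 hM
  obtain ⟨b1, b2, -⟩ := facts hmul hU hV hB2 hUm hVm hM1 hM
  funext s
  exact a3 _ (a1 s) _ (b1 s) ((a2 s).trans (b2 s).symm)

end Pool.Agent.N344.PY
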